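import Pool.Agent.Q218.WE.Stm

/-! The kinetic energy of the eigenfunctions (job WE-DROP). -/

set_option autoImplicit false
set_option linter.unusedSectionVars false

open scoped BigOperators Topology InnerProductSpace

namespace Pool.Agent.Q177.WE.DROP

open Pool.Agent.W788.LD.Spec (S)
open Pool.Agent.H4R2.LO (Zd bx)
open Pool.Agent.TH794.QD (HS hmk hs_sum hmk_apply Tr Tr_apply tr_tsum evl evl_apply)

variable {d : ℕ}

/-- the adjacency operator -/
noncomputable def Sop (d : ℕ) : HS d →L[ℂ] HS d :=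
  ∑ i : Fin d, (Tr (Pi.single i 1) + Tr (-Pi.single i 1))

theorem Sop_apply (u : HS d) (x : Zd d) : Sop d u x = S (fun y => u y) x := by
  rw [← evl_apply x (Sop d u)]
  unfold Sop S
  rw [ContinuousLinearMap.sum_apply, map_sum]
  refine Finset.sum_congr rfl fun i _ => ?_
  rw [ContinuousLinearMap.add_apply, map_add, evl_apply, evl_apply, Tr_apply, Tr_apply,
    sub_eq_add_neg]

theorem Tr_norm (e : Zd d) (u : HS d) : ‖Tr e u‖ = ‖u‖ := by
  have h1 := hs_sum (Tr e u)
  have h2 : ‖Tr e u‖ ^ 2 = ‖u‖ ^ 2 := by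
    rw [← h1.tsum_eq, ← tr_tsum e u]
    exact tsum_congr fun x => by rw [Tr_apply]
  exact (pow_left_inj₀ (norm_nonneg _) (norm_nonneg _) two_ne_zero).1 h2

theorem Sop_norm (u : HS d) : ‖Sop d u‖ ≤ 2 * d * ‖u‖ := by
  unfold Sop
  rw [ContinuousLinearMap.sum_apply]
  refine (norm_sum_le _ _).trans ?_
  calc ∑ i : Fin d, ‖(Tr (Pi.single i 1) + Tr (-Pi.single i 1) : HS d →L[ℂ] HS d) u‖
      ≤ ∑ _i : Fin d, 2 * ‖u‖ := by
        refine Finset.sum_le_sum fun i _ => ?_
        rw [ContinuousLinearMap.add_apply]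
        refine (norm_add_le _ _).trans ?_
        rw [Tr_norm, Tr_norm]
        linarith
    _ = 2 * d * ‖u‖ := by
        rw [Finset.sum_const, Finset.card_univ, Fintype.card_fin, nsmul_eq_mul]
        ring

theorem iter_apply (i : ℕ) (u : HS d) (x : Zd d) :
    (fun v => Sop d v)^[i] u x = S^[i] (fun y => u y) x := by
  induction i generalizing x with
  | zero => rfl
  | succ i ih =>
    rw [Function.iterate_succ', Function.iterate_succ', Function.comp_apply,
      Function.comp_apply, Sop_apply]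
    congr 1
    funext y
    exact ih y

theorem iter_norm (i : ℕ) (u : HS d) :
    ‖(fun v => Sop d v)^[i] u‖ ≤ (2 * d) ^ i * ‖u‖ := by
  induction i with
  | zero => simp
  | succ i ih =>
    rw [Function.iterate_succ', Function.comp_apply]
    refine (Sop_norm _).trans ?_
    calc 2 * d * ‖(fun v => Sop d v)^[i] u‖ ≤ 2 * d * ((2 * d) ^ i * ‖u‖) := by gcongr
      _ = (2 * d) ^ (i + 1) * ‖u‖ := by ring

theorem S_comb (m : ℕ) (a : ℕ → ℂ) (c : ℂ) (g : ℕ → Zd d → ℂ) (f : Zd d → ℂ) (F : Zd d → ℂ)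
    (x : Zd d) (hF : ∀ i : Fin d, F (x + Pi.single i 1) =
        c * f (x + Pi.single i 1) + ∑ k ∈ Finset.range m, a k * g k (x + Pi.single i 1))
    (hF' : ∀ i : Fin d, F (x - Pi.single i 1) =
        c * f (x - Pi.single i 1) + ∑ k ∈ Finset.range m, a k * g k (x - Pi.single i 1)) :
    S F x = c * S f x + ∑ k ∈ Finset.range m, a k * S (g k) x := by
  unfold S
  simp only [Finset.mul_sum]
  rw [Finset.sum_comm, ← Finset.sum_add_distrib]
  refine Finset.sum_congr rfl fun i _ => ?_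
  rw [hF, hF', ← sub_eq_zero]
  have h1 : ∑ k ∈ Finset.range m, a k * (g k (x + Pi.single i 1) + g k (x - Pi.single i 1)) =
      ∑ k ∈ Finset.range m, a k * g k (x + Pi.single i 1) +
        ∑ k ∈ Finset.range m, a k * g k (x - Pi.single i 1) := by
    rw [← Finset.sum_add_distrib]
    exact Finset.sum_congr rfl fun k _ => by ring
  rw [h1]
  ring

theorem norm_single (i : Fin d) : ‖(Pi.single i (1 : ℤ) : Zd d)‖ ≤ 1 := by
  refine (pi_norm_le_iff_of_nonneg zero_le_one).2 fun j => ?_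
  by_cases h : j = i
  · subst h
    rw [Pi.single_eq_same]
    simp
  · rw [Pi.single_eq_of_ne h]
    simp

/-- the expansion -/
theorem expand (W : Zd d → ℝ) (b : Zd d) (L : ℕ) (f : Zd d → ℂ) (E : ℝ)
    (hf : ∀ x, ‖x - b‖ < L → -S f x + (W x : ℂ) * f x = (E : ℂ) * f x) (h : Zd d → ℂ)
    (hh : ∀ x, ‖x - b‖ < L → h x = (W x : ℂ) * f x) (m : ℕ) :
    ∀ x : Zd d, ‖x - b‖ + m ≤ L → S^[m] f x = ((-E : ℝ) : ℂ) ^ m * f x +
      ∑ i ∈ Finset.range m, ((-E : ℝ) : ℂ) ^ (m - 1 - i) * S^[i] h x := by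
  induction m with
  | zero =>
    intro x _
    simp
  | succ m ih =>
    intro x hx
    push_cast at hx
    have hn : ∀ i : Fin d, ‖x + Pi.single i 1 - b‖ + m ≤ L := by
      intro i
      have h1 : x + Pi.single i 1 - b = (x - b) + Pi.single i 1 := by abel
      rw [h1]
      have h2 := norm_add_le (x - b) (Pi.single i (1 : ℤ))
      have h3 := norm_single i
      linarith
    have hn' : ∀ i : Fin d, ‖x - Pi.single i 1 - b‖ + m ≤ L := by
      intro i
      have h1 : x - Pi.single i 1 - b = (x - b) - Pi.single i 1 := by abel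
      rw [h1]
      have h2 := norm_sub_le (x - b) (Pi.single i (1 : ℤ))
      have h3 := norm_single i
      linarith
    have hlt : ‖x - b‖ < L := by
      have : (0 : ℝ) ≤ m := Nat.cast_nonneg m
      linarith
    have e1 : S f x = ((-E : ℝ) : ℂ) * f x + h x := by
      rw [hh x hlt]
      have := hf x hlt
      push_cast
      linear_combination -this
    rw [Function.iterate_succ', Function.comp_apply,
      S_comb m (fun k => ((-E : ℝ) : ℂ) ^ (m - 1 - k)) (((-E : ℝ) : ℂ) ^ m) (fun k => S^[k] h) f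
        (S^[m] f) x (fun i => ih _ (hn i)) (fun i => ih _ (hn' i)), e1,
      Finset.sum_range_succ']
    have e2 : ∑ k ∈ Finset.range m, ((-E : ℝ) : ℂ) ^ (m + 1 - 1 - (k + 1)) * S^[k + 1] h x =
        ∑ k ∈ Finset.range m, ((-E : ℝ) : ℂ) ^ (m - 1 - k) * S (S^[k] h) x := by
      refine Finset.sum_congr rfl fun k _ => ?_
      rw [Function.iterate_succ', Function.comp_apply]
      congr 2
      omega
    rw [e2]
    simp only [Function.iterate_zero, id_eq, Nat.add_sub_cancel, Nat.sub_zero]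
    ring

theorem norm_le_of_bx (b : Zd d) (l : ℕ) (x : Zd d) (hx : x ∈ bx b l) : ‖x - b‖ ≤ l := by
  unfold bx at hx
  rw [Fintype.mem_piFinset] at hx
  refine (pi_norm_le_iff_of_nonneg (Nat.cast_nonneg l)).2 fun i => ?_
  have h1 := Finset.mem_Icc.1 (hx i)
  rw [Pi.sub_apply, Int.norm_eq_abs]
  have h2 : |x i - b i| ≤ (l : ℤ) := abs_le.2 ⟨by linarith [h1.1], by linarith [h1.2]⟩
  exact_mod_cast h2

theorem bx_of_norm (b : Zd d) (l : ℕ) (x : Zd d) (hx : ‖x - b‖ ≤ l) : x ∈ bx b l := by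
  unfold bx
  rw [Fintype.mem_piFinset]
  intro i
  have h1 := (pi_norm_le_iff_of_nonneg (Nat.cast_nonneg l)).1 hx i
  rw [Pi.sub_apply, Int.norm_eq_abs] at h1
  have h2 : |x i - b i| ≤ (l : ℤ) := by exact_mod_cast h1
  have h3 := abs_le.1 h2
  exact Finset.mem_Icc.2 ⟨by linarith [h3.1], by linarith [h3.2]⟩

/-- Bessel -/
theorem bessel {J : Type} (f : J → HS d) (hf : Orthonormal ℂ f) (s : Finset J) (y : Zd d) :
    ∑ j ∈ s, ‖f j y‖ ^ 2 ≤ 1 := by
  classical
  have h1 := hf.sum_inner_products_le (s := s) (lp.single 2 y (1 : ℂ))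
  have h2 : ‖(lp.single 2 y (1 : ℂ) : HS d)‖ = 1 := by
    rw [lp.norm_single (by norm_num)]
    exact norm_one
  rw [h2, one_pow] at h1
  refine le_trans (le_of_eq (Finset.sum_congr rfl fun j _ => ?_)) h1
  congr 1
  rw [lp.inner_single_right]
  simp

theorem t_DROP : Pool.Agent.Q218.WE.S_DROP := by
  classical
  intro d _ W b L n hn J f hf E hfE s hE m hm
  -- the inhomogeneities
  have hsum : ∀ j : J, Summable fun y : Zd d =>
      ‖(if ‖y - b‖ < L then (W y : ℂ) * f j y else 0 : ℂ)‖ ^ 2 := by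
    intro j
    refine summable_of_ne_finset_zero (s := bx b L) fun y hy => ?_
    rw [if_neg fun h => hy (bx_of_norm b L y h.le)]
    simp
  obtain ⟨h, hh⟩ : ∃ h : J → HS d, ∀ j y, h j y = if ‖y - b‖ < L then (W y : ℂ) * f j y else 0 :=
    ⟨fun j => hmk _ (hsum j), fun j y => rfl⟩
  have hnorm : ∀ j, ‖h j‖ ^ 2 ≤ ∑ y ∈ bx b L, W y ^ 2 * ‖f j y‖ ^ 2 := by
    intro j
    have h1 := hs_sum (h j)
    have h2 : ‖h j‖ ^ 2 = ∑ y ∈ bx b L, ‖h j y‖ ^ 2 := by
      rw [← h1.tsum_eq]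
      refine tsum_eq_sum fun y hy => ?_
      rw [hh, if_neg fun h => hy (bx_of_norm b L y h.le)]
      simp
    rw [h2]
    refine Finset.sum_le_sum fun y _ => ?_
    rw [hh]
    split_ifs
    · rw [norm_mul, mul_pow, Complex.norm_real, Real.norm_eq_abs, sq_abs]
    · rw [norm_zero, zero_pow two_ne_zero]
      positivity
  have hbes : ∑ j ∈ s, ‖h j‖ ^ 2 ≤ ∑ y ∈ bx b L, W y ^ 2 := by
    calc ∑ j ∈ s, ‖h j‖ ^ 2 ≤ ∑ j ∈ s, ∑ y ∈ bx b L, W y ^ 2 * ‖f j y‖ ^ 2 :=
          Finset.sum_le_sum fun j _ => hnorm j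
      _ = ∑ y ∈ bx b L, W y ^ 2 * ∑ j ∈ s, ‖f j y‖ ^ 2 := by
          rw [Finset.sum_comm]
          exact Finset.sum_congr rfl fun y _ => by rw [Finset.mul_sum]
      _ ≤ ∑ y ∈ bx b L, W y ^ 2 * 1 := by
          refine Finset.sum_le_sum fun y _ => ?_
          exact mul_le_mul_of_nonneg_left (bessel f hf s y) (sq_nonneg _)
      _ = _ := by simp
  have key : ∀ j ∈ s, ∑ x ∈ bx b (L - n),
      ‖S^[m] (fun y => f j y) x - ((-E j : ℝ) : ℂ) ^ m * f j x‖ ^ 2 ≤
      (m * (2 * d) ^ (m - 1)) ^ 2 * ‖h j‖ ^ 2 := by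
    intro j hj
    obtain ⟨g, hg⟩ : ∃ g : HS d, g = ∑ i ∈ Finset.range m,
        ((-E j : ℝ) : ℂ) ^ (m - 1 - i) • (fun v => Sop d v)^[i] (h j) := ⟨_, rfl⟩
    have h1 : ∀ x ∈ bx b (L - n),
        S^[m] (fun y => f j y) x - ((-E j : ℝ) : ℂ) ^ m * f j x = g x := by
      intro x hx
      have h2 := norm_le_of_bx b _ x hx
      have h3 : ‖x - b‖ + m ≤ L := by
        rw [Nat.cast_sub hn] at h2
        have : (m : ℝ) ≤ n := by exact_mod_cast hm
        linarith
      rw [expand W b L (fun y => f j y) (E j) (fun x hx => hfE j x hx) (fun y => h j y)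
        (fun x hx => by rw [hh, if_pos hx]) m x h3, add_sub_cancel_left, hg,
        ← evl_apply x, map_sum]
      refine Finset.sum_congr rfl fun i _ => ?_
      rw [map_smul, evl_apply, iter_apply, smul_eq_mul]
    have h4 : ‖g‖ ≤ m * (2 * d) ^ (m - 1) * ‖h j‖ := by
      rw [hg]
      refine (norm_sum_le _ _).trans ?_
      calc ∑ i ∈ Finset.range m, ‖((-E j : ℝ) : ℂ) ^ (m - 1 - i) •
            (fun v => Sop d v)^[i] (h j)‖
          ≤ ∑ _i ∈ Finset.range m, (2 * d) ^ (m - 1) * ‖h j‖ := by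
            refine Finset.sum_le_sum fun i hi => ?_
            have hi' := Finset.mem_range.1 hi
            rw [norm_smul, norm_pow, Complex.norm_real, Real.norm_eq_abs, abs_neg]
            calc |E j| ^ (m - 1 - i) * ‖(fun v => Sop d v)^[i] (h j)‖
                ≤ (2 * d) ^ (m - 1 - i) * ((2 * d) ^ i * ‖h j‖) := by
                  refine mul_le_mul (pow_le_pow_left₀ (abs_nonneg _) (hE j hj) _)
                    (iter_norm i (h j)) (norm_nonneg _) (by positivity)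
              _ = (2 * d) ^ (m - 1) * ‖h j‖ := by
                  rw [← mul_assoc, ← pow_add]
                  congr 2
                  omega
        _ = m * (2 * d) ^ (m - 1) * ‖h j‖ := by
            rw [Finset.sum_const, Finset.card_range, nsmul_eq_mul]
            ring
    calc ∑ x ∈ bx b (L - n), ‖S^[m] (fun y => f j y) x - ((-E j : ℝ) : ℂ) ^ m * f j x‖ ^ 2
        = ∑ x ∈ bx b (L - n), ‖g x‖ ^ 2 := Finset.sum_congr rfl fun x hx => by rw [h1 x hx]
      _ ≤ ‖g‖ ^ 2 := by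
          rw [← (hs_sum g).tsum_eq]
          exact (hs_sum g).summable.sum_le_tsum _ fun x _ => by positivity
      _ ≤ (m * (2 * d) ^ (m - 1) * ‖h j‖) ^ 2 := pow_le_pow_left₀ (norm_nonneg _) h4 2
      _ = _ := by rw [mul_pow]
  calc ∑ j ∈ s, ∑ x ∈ bx b (L - n),
        ‖S^[m] (fun y => f j y) x - ((-E j : ℝ) : ℂ) ^ m * f j x‖ ^ 2
      ≤ ∑ j ∈ s, (m * (2 * d) ^ (m - 1)) ^ 2 * ‖h j‖ ^ 2 := Finset.sum_le_sum key
    _ = (m * (2 * d) ^ (m - 1)) ^ 2 * ∑ j ∈ s, ‖h j‖ ^ 2 := by rw [Finset.mul_sum]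
    _ ≤ _ := mul_le_mul_of_nonneg_left hbes (by positivity)

end Pool.Agent.Q177.WE.DROP
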