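import Pool.Agent.Q218.WE.Stm
import Pool.Agent.Q218.LE.Stm

/-! Project WE (helper218), job EXPK: the mean over the disorder of the correlation function. -/

set_option autoImplicit false
set_option linter.unusedSectionVars false

open scoped BigOperators ComplexConjugate
open MeasureTheory Set

namespace Pool.Agent.Q177.WE.EX

open Pool.Agent.H4R2.LO (Zd bx)
open Pool.Agent.TH794.HK (ph ph_norm)
open Pool.Agent.TH794.QD (Sol)
open Pool.Agent.W788.LD.Spec (S)
open Pool.Agent.Q218.UD (sol_unique)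
open Pool.Agent.Q218.WE (cv sv kq Sk)

variable {d : ℕ}

/-- the shift -/
def sh (y : Zd d) (ω : Zd d → ℝ) : Zd d → ℝ := fun z => ω (z + y)

theorem sh_mp (μ : Measure ℝ) [IsProbabilityMeasure μ] (y : Zd d) :
    MeasurePreserving (sh y) (Measure.infinitePi fun _ : Zd d => μ)
      (Measure.infinitePi fun _ : Zd d => μ) := by
  refine ⟨measurable_pi_lambda _ fun z => measurable_pi_apply _, ?_⟩
  have h := Measure.infinitePi_map_piCongrLeft (X := fun _ : Zd d => ℝ)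
    (μ := fun _ : Zd d => μ) (Equiv.addRight y).symm
  conv_rhs => rw [← h]
  congr 1
  funext z i
  have h1 := Equiv.piCongrLeft_apply (fun _ : Zd d => ℝ) (Equiv.addRight y).symm z i
  rw [MeasurableEquiv.coe_piCongrLeft, h1]
  simp only [sh, Equiv.symm_symm, Equiv.coe_addRight]
  exact (eq_rec_constant (z (i + y)) _).symm

/-- translation of the solution -/
theorem sol_shift {lam : ℝ} {ψ : (Zd d → ℝ) → Zd d → ℝ → Zd d → ℂ}
    (hψ : ∀ ω a, Sol d (fun x => lam * ω x) a (ψ ω a)) (ω : Zd d → ℝ) (y z : Zd d) (t : ℝ)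
    (x : Zd d) : ψ ω (y + z) t x = ψ (sh y ω) z t (x - y) := by
  have h := hψ (sh y ω) z
  have h1 : Sol d (fun x => lam * ω x) (y + z) fun t x => ψ (sh y ω) z t (x - y) := by
    refine ⟨fun x => ?_, fun s x => ?_, fun s => ?_⟩
    · have e0 : x - y = z ↔ x = y + z := by
        constructor
        · intro h
          rw [← h]
          abel
        · intro h
          rw [h]
          abel
      simp only [h.init, e0]
    · have h2 := h.ode s (x - y)
      refine h2.congr_deriv ?_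
      simp only [S, sh, sub_add_cancel]
      congr 3
      refine Finset.sum_congr rfl fun i _ => ?_
      congr 2
      · abel
      · abel
    · exact (Equiv.subRight y).hasSum_iff.2 (h.norm s)
  have h3 := sol_unique (hψ ω (y + z)) h1
  exact congrFun (congrFun h3 t) x

/-- the time average -/
noncomputable def gg (Z : Finset (Zd d)) (o : Zd d → ℂ)
    (ψ : (Zd d → ℝ) → Zd d → ℝ → Zd d → ℂ) (T : ℝ) (y x : Zd d)
    (ω : Zd d → ℝ) : ℂ :=
  ∫ s in Ioi (0 : ℝ), ((Real.exp (-s) : ℝ) : ℂ) * kq Z o (ψ ω) (s * T) x y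

section

variable {lam T : ℝ} {ψ : (Zd d → ℝ) → Zd d → ℝ → Zd d → ℂ} {Z : Finset (Zd d)}
  {o : Zd d → ℂ} (hψ : ∀ ω a, Sol d (fun x => lam * ω x) a (ψ ω a))

include hψ

theorem kq_cont (y x : Zd d) (ω : Zd d → ℝ) :
    Continuous fun t : ℝ => kq Z o (ψ ω) t x y := by
  have hc : ∀ y x, Continuous fun t : ℝ => ψ ω y t x := fun y x => (hψ ω y).cont x
  unfold kq cv sv
  refine (hc y x).mul (Complex.continuous_conj.comp ?_)
  refine continuous_finsetSum _ fun w _ => continuous_const.mul ?_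
  exact continuous_finsetSum _ fun z _ => continuous_const.mul (hc _ _)

theorem kq_meas (hM : ∀ (y : Zd d) (t : ℝ) (x : Zd d), Measurable fun ω => ψ ω y t x)
    (t : ℝ) (y x : Zd d) : Measurable fun ω => kq Z o (ψ ω) t x y := by
  unfold kq cv sv
  refine (hM y t x).mul (Complex.continuous_conj.measurable.comp ?_)
  refine Finset.measurable_sum _ fun w _ => measurable_const.mul ?_
  exact Finset.measurable_sum _ fun z _ => measurable_const.mul (hM _ _ _)

theorem kq_sum (ho : ∑ z ∈ Z, ‖o z‖ ≤ 1) (t : ℝ) (y : Zd d) (s : Finset (Zd d))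
    (ω : Zd d → ℝ) : ∑ x ∈ s, ‖kq Z o (ψ ω) t x y‖ ≤ 1 := by
  have h1 : ∀ (a b : Zd d), ∑ x ∈ s, ‖ψ ω a t (x + b)‖ ^ 2 ≤ 1 := by
    intro a b
    have h2 := ((Equiv.addRight b).hasSum_iff (f := fun x => ‖ψ ω a t x‖ ^ 2)).2
      ((hψ ω a).norm t)
    exact sum_le_hasSum s (fun x _ => sq_nonneg _) h2
  have h3 : ∀ x, ‖kq Z o (ψ ω) t x y‖ ≤ ∑ w ∈ Z, ∑ z ∈ Z, ‖o w‖ * ‖o z‖ *
      ((‖ψ ω y t x‖ ^ 2 + ‖ψ ω (y + z) t (x + w)‖ ^ 2) / 2) := by
    intro x
    unfold kq cv sv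
    rw [norm_mul, Complex.norm_conj]
    calc ‖ψ ω y t x‖ * ‖∑ w ∈ Z, o w * ∑ z ∈ Z, (starRingEnd ℂ) (o z) * ψ ω (y + z) t (x + w)‖
        ≤ ‖ψ ω y t x‖ * ∑ w ∈ Z, ‖o w‖ * ∑ z ∈ Z, ‖o z‖ * ‖ψ ω (y + z) t (x + w)‖ := by
          refine mul_le_mul_of_nonneg_left ?_ (norm_nonneg _)
          refine (norm_sum_le _ _).trans (Finset.sum_le_sum fun w _ => ?_)
          rw [norm_mul]
          refine mul_le_mul_of_nonneg_left ?_ (norm_nonneg _)
          refine (norm_sum_le _ _).trans (Finset.sum_le_sum fun z _ => ?_)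
          rw [norm_mul, Complex.norm_conj]
      _ = ∑ w ∈ Z, ∑ z ∈ Z, ‖o w‖ * ‖o z‖ * (‖ψ ω y t x‖ * ‖ψ ω (y + z) t (x + w)‖) := by
          rw [Finset.mul_sum]
          refine Finset.sum_congr rfl fun w _ => ?_
          rw [Finset.mul_sum, Finset.mul_sum]
          exact Finset.sum_congr rfl fun z _ => by ring
      _ ≤ _ := by
          refine Finset.sum_le_sum fun w _ => Finset.sum_le_sum fun z _ => ?_
          refine mul_le_mul_of_nonneg_left ?_ (by positivity)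
          nlinarith [sq_nonneg (‖ψ ω y t x‖ - ‖ψ ω (y + z) t (x + w)‖)]
  calc ∑ x ∈ s, ‖kq Z o (ψ ω) t x y‖
      ≤ ∑ x ∈ s, ∑ w ∈ Z, ∑ z ∈ Z, ‖o w‖ * ‖o z‖ *
        ((‖ψ ω y t x‖ ^ 2 + ‖ψ ω (y + z) t (x + w)‖ ^ 2) / 2) :=
        Finset.sum_le_sum fun x _ => h3 x
    _ = ∑ w ∈ Z, ∑ z ∈ Z, ‖o w‖ * ‖o z‖ *
        ((∑ x ∈ s, ‖ψ ω y t x‖ ^ 2 + ∑ x ∈ s, ‖ψ ω (y + z) t (x + w)‖ ^ 2) / 2) := by
        rw [Finset.sum_comm]
        refine Finset.sum_congr rfl fun w _ => ?_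
        rw [Finset.sum_comm]
        refine Finset.sum_congr rfl fun z _ => ?_
        rw [← Finset.mul_sum, ← Finset.sum_div, Finset.sum_add_distrib]
    _ ≤ ∑ w ∈ Z, ∑ z ∈ Z, ‖o w‖ * ‖o z‖ * 1 := by
        refine Finset.sum_le_sum fun w _ => Finset.sum_le_sum fun z _ => ?_
        refine mul_le_mul_of_nonneg_left ?_ (by positivity)
        have e1 := h1 y 0
        simp only [add_zero] at e1
        have e2 := h1 (y + z) w
        linarith
    _ = (∑ w ∈ Z, ‖o w‖) * ∑ z ∈ Z, ‖o z‖ := by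
        rw [Finset.sum_mul_sum]
        simp only [mul_one]
    _ ≤ 1 := by
        have h0 : 0 ≤ ∑ z ∈ Z, ‖o z‖ := Finset.sum_nonneg fun _ _ => norm_nonneg _
        nlinarith

theorem kq_le (ho : ∑ z ∈ Z, ‖o z‖ ≤ 1) (t : ℝ) (y x : Zd d) (ω : Zd d → ℝ) :
    ‖kq Z o (ψ ω) t x y‖ ≤ 1 := by
  have := kq_sum hψ ho t y {x} ω
  rwa [Finset.sum_singleton] at this

theorem cu (y x : Zd d) (ω : Zd d → ℝ) :
    Continuous fun s : ℝ => ((Real.exp (-s) : ℝ) : ℂ) * kq Z o (ψ ω) (s * T) x y := by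
  have h1 : Continuous fun s : ℝ => kq Z o (ψ ω) (s * T) x y :=
    (kq_cont hψ y x ω).comp (continuous_mul_const T)
  fun_prop

theorem ci (ho : ∑ z ∈ Z, ‖o z‖ ≤ 1) (y x : Zd d) (ω : Zd d → ℝ) :
    IntegrableOn (fun s : ℝ => ((Real.exp (-s) : ℝ) : ℂ) * kq Z o (ψ ω) (s * T) x y)
      (Ioi 0) := by
  refine Integrable.mono' (integrableOn_exp_neg_Ioi 0) (cu hψ y x ω).aestronglyMeasurable
    (Filter.Eventually.of_forall fun s => ?_)
  rw [norm_mul, Complex.norm_real, Real.norm_eq_abs, abs_of_pos (Real.exp_pos _)]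
  have := kq_le hψ ho (s * T) y x ω
  have := Real.exp_pos (-s)
  nlinarith

/-- the majorant -/
theorem nn_sum (ho : ∑ z ∈ Z, ‖o z‖ ≤ 1) (y : Zd d) (s : Finset (Zd d)) (ω : Zd d → ℝ) :
    ∑ x ∈ s, ∫ r in Ioi (0 : ℝ), ‖((Real.exp (-r) : ℝ) : ℂ) * kq Z o (ψ ω) (r * T) x y‖ ≤ 1 := by
  rw [← integral_finsetSum _ fun x _ => (ci hψ ho y x ω).norm]
  rw [← integral_exp_neg_Ioi_zero]
  refine setIntegral_mono_on (integrable_finsetSum _ fun x _ => (ci hψ ho y x ω).norm)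
    (integrableOn_exp_neg_Ioi 0) measurableSet_Ioi fun r _ => ?_
  have h1 := kq_sum hψ ho (r * T) y s ω
  have h2 : ∑ x ∈ s, ‖((Real.exp (-r) : ℝ) : ℂ) * kq Z o (ψ ω) (r * T) x y‖ =
      Real.exp (-r) * ∑ x ∈ s, ‖kq Z o (ψ ω) (r * T) x y‖ := by
    rw [Finset.mul_sum]
    refine Finset.sum_congr rfl fun x _ => ?_
    rw [norm_mul, Complex.norm_real, Real.norm_eq_abs, abs_of_pos (Real.exp_pos _)]
  rw [h2]
  have := Real.exp_pos (-r)
  nlinarith

theorem gg_meas (hM : ∀ (y : Zd d) (t : ℝ) (x : Zd d), Measurable fun ω => ψ ω y t x)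
    (y x : Zd d) : StronglyMeasurable (gg Z o ψ T y x) := by
  unfold gg
  have h1 : StronglyMeasurable (Function.uncurry
      fun (s : ℝ) (ω : Zd d → ℝ) => ((Real.exp (-s) : ℝ) : ℂ) * kq Z o (ψ ω) (s * T) x y) :=
    stronglyMeasurable_uncurry_of_continuous_of_stronglyMeasurable (fun ω => cu hψ y x ω)
      fun s => ((kq_meas hψ hM (s * T) y x).const_mul _).stronglyMeasurable
  exact h1.integral_prod_left

theorem gg_norm_le (y x : Zd d) (ω : Zd d → ℝ) : ‖gg Z o ψ T y x ω‖ ≤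
    ∫ r in Ioi (0 : ℝ), ‖((Real.exp (-r) : ℝ) : ℂ) * kq Z o (ψ ω) (r * T) x y‖ :=
  norm_integral_le_integral_norm _

theorem gg_sum (ho : ∑ z ∈ Z, ‖o z‖ ≤ 1) (y : Zd d) (s : Finset (Zd d)) (ω : Zd d → ℝ) :
    ∑ x ∈ s, ‖gg Z o ψ T y x ω‖ ≤ 1 :=
  (Finset.sum_le_sum fun x _ => gg_norm_le hψ y x ω).trans (nn_sum hψ ho y s ω)

theorem gg_le (ho : ∑ z ∈ Z, ‖o z‖ ≤ 1) (y x : Zd d) (ω : Zd d → ℝ) :
    ‖gg Z o ψ T y x ω‖ ≤ 1 := by
  have := gg_sum (T := T) hψ ho y {x} ω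
  rwa [Finset.sum_singleton] at this

theorem kq_shift (t : ℝ) (y x : Zd d) (ω : Zd d → ℝ) :
    kq Z o (ψ ω) t x y = kq Z o (ψ (sh y ω)) t (x - y) 0 := by
  unfold kq cv sv
  have h1 : ψ ω y t x = ψ (sh y ω) 0 t (x - y) := by
    have := sol_shift hψ ω y 0 t x
    rwa [add_zero] at this
  rw [h1]
  congr 2
  refine Finset.sum_congr rfl fun w _ => ?_
  congr 1
  refine Finset.sum_congr rfl fun z _ => ?_
  congr 1
  rw [sol_shift hψ ω y z t (x + w), zero_add]
  congr 1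
  abel

theorem gg_shift (y x : Zd d) (ω : Zd d → ℝ) :
    gg Z o ψ T y x ω = gg Z o ψ T 0 (x - y) (sh y ω) := by
  unfold gg
  refine integral_congr_ae (Filter.Eventually.of_forall fun s => ?_)
  simp only
  rw [kq_shift hψ (s * T) y x ω]

variable {μ : Measure ℝ} [IsProbabilityMeasure μ]
  (hM : ∀ (y : Zd d) (t : ℝ) (x : Zd d), Measurable fun ω => ψ ω y t x)
  (ho : ∑ z ∈ Z, ‖o z‖ ≤ 1)

include hM ho

theorem gg_int (y x : Zd d) :
    Integrable (gg Z o ψ T y x) (Measure.infinitePi fun _ : Zd d => μ) :=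
  Integrable.of_bound (gg_meas hψ hM y x).aestronglyMeasurable 1
    (Filter.Eventually.of_forall fun ω => gg_le hψ ho y x ω)

omit hψ hM ho in
/-- the mean -/
noncomputable def PP (Z : Finset (Zd d)) (o : Zd d → ℂ)
    (ψ : (Zd d → ℝ) → Zd d → ℝ → Zd d → ℂ) (T : ℝ) (μ : Measure ℝ) (z : Zd d) :
    ℂ := ∫ ω, gg Z o ψ T 0 z ω ∂(Measure.infinitePi fun _ : Zd d => μ)

omit ho in
theorem gg_mean (y x : Zd d) :
    ∫ ω, gg Z o ψ T y x ω ∂(Measure.infinitePi fun _ : Zd d => μ) = PP Z o ψ T μ (x - y) := by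
  unfold PP
  have h1 : ∀ ω, gg Z o ψ T y x ω = gg Z o ψ T 0 (x - y) (sh y ω) := fun ω => gg_shift hψ y x ω
  simp only [h1]
  have h2 := (sh_mp μ y).map_eq
  conv_rhs => rw [← h2]
  rw [integral_map (sh_mp μ y).measurable.aemeasurable
    (gg_meas hψ hM 0 (x - y)).aestronglyMeasurable]

theorem ng_sum (s : Finset (Zd d)) :
    ∑ z ∈ s, ∫ ω, ‖gg Z o ψ T 0 z ω‖ ∂(Measure.infinitePi fun _ : Zd d => μ) ≤ 1 := by
  rw [← integral_finsetSum _ fun z _ => (gg_int hψ hM ho 0 z).norm]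
  refine (integral_mono (integrable_finsetSum _ fun z _ => (gg_int hψ hM ho 0 z).norm)
    (integrable_const 1) fun ω => gg_sum hψ ho 0 s ω).trans ?_
  simp

theorem ng_summable : Summable fun z => ∫ ω, ‖gg Z o ψ T 0 z ω‖
    ∂(Measure.infinitePi fun _ : Zd d => μ) :=
  summable_of_sum_le (fun z => integral_nonneg fun ω => norm_nonneg _)
    fun s => ng_sum hψ hM ho s

theorem PP_summable : Summable fun z => ‖PP Z o ψ T μ z‖ :=
  Summable.of_nonneg_of_le (fun z => norm_nonneg _)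
    (fun z => norm_integral_le_integral_norm _) (ng_summable (T := T) (μ := μ) hψ hM ho)

omit hM [IsProbabilityMeasure μ] in
/-- the Fourier transform for a fixed potential -/
theorem inner_sum (p : Fin d → ℝ) (ω : Zd d → ℝ) :
    ∑' z : Zd d, ph p z * gg Z o ψ T 0 z ω =
      ∫ s in Ioi (0 : ℝ), ((Real.exp (-s) : ℝ) : ℂ) *
        ∑' x : Zd d, ph p x * kq Z o (ψ ω) (s * T) x 0 := by
  have hI : ∀ z : Zd d, Integrable (fun s : ℝ =>
      ph p z * (((Real.exp (-s) : ℝ) : ℂ) * kq Z o (ψ ω) (s * T) z 0))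
      (volume.restrict (Ioi 0)) := fun z => (ci hψ ho 0 z ω).const_mul _
  have hn : ∀ z : Zd d, ∫ s in Ioi (0 : ℝ),
      ‖ph p z * (((Real.exp (-s) : ℝ) : ℂ) * kq Z o (ψ ω) (s * T) z 0)‖ =
      ∫ s in Ioi (0 : ℝ), ‖((Real.exp (-s) : ℝ) : ℂ) * kq Z o (ψ ω) (s * T) z 0‖ := by
    intro z
    refine integral_congr_ae (Filter.Eventually.of_forall fun s => ?_)
    simp only
    rw [norm_mul, ph_norm, one_mul]
  have h1 := hasSum_integral_of_summable_integral_norm hI (by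
    simp only [hn]
    exact summable_of_sum_le (fun z => integral_nonneg fun s => norm_nonneg _)
      fun s => nn_sum hψ ho 0 s ω)
  have h2 : ∀ z : Zd d, ∫ s in Ioi (0 : ℝ),
      ph p z * (((Real.exp (-s) : ℝ) : ℂ) * kq Z o (ψ ω) (s * T) z 0) =
      ph p z * gg Z o ψ T 0 z ω := by
    intro z
    rw [integral_const_mul]
    rfl
  simp only [h2] at h1
  rw [h1.tsum_eq]
  refine integral_congr_ae (Filter.Eventually.of_forall fun s => ?_)
  simp only
  rw [← tsum_mul_left]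
  refine tsum_congr fun z => ?_
  ring

theorem PP_four (p : Fin d → ℝ) :
    ∑' z : Zd d, ph p z * PP Z o ψ T μ z =
      ∫ ω, (∑' z : Zd d, ph p z * gg Z o ψ T 0 z ω)
        ∂(Measure.infinitePi fun _ : Zd d => μ) := by
  have h1 := hasSum_integral_of_summable_integral_norm
    (μ := Measure.infinitePi fun _ : Zd d => μ)
    (F := fun (z : Zd d) ω => ph p z * gg Z o ψ T 0 z ω)
    (fun z => (gg_int hψ hM ho 0 z).const_mul (ph p z)) (by
      refine (ng_summable (T := T) (μ := μ) hψ hM ho).congr fun z => ?_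
      refine integral_congr_ae (Filter.Eventually.of_forall fun ω => ?_)
      simp only
      rw [norm_mul, ph_norm, one_mul])
  rw [← h1.tsum_eq]
  refine tsum_congr fun z => ?_
  rw [integral_const_mul]
  rfl

end

theorem t_EXPK : Pool.Agent.Q218.LE.S_MEAS → Pool.Agent.Q218.WE.S_MUL →
    Pool.Agent.Q218.WE.S_EXPK := by
  intro hMEAS hMUL d hd μ _ lam T ε G ψ Z o hψ hT hε ho hG hG1 hG2 Λ c hc
  have hM : ∀ (y : Zd d) (t : ℝ) (x : Zd d), Measurable fun ω => ψ ω y t x := fun y t x =>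
    hMEAS d hd (Zd d → ℝ) y (fun ω x => lam * ω x) (fun ω => ψ ω y)
      (fun x => by fun_prop) (fun ω => hψ ω y) t x
  -- the correlation function
  have hS : ∀ ω, (∫ s in Ioi (0 : ℝ), Real.exp (-s) * (Sk Z o (ψ ω) Λ c (s * T)).re) =
      ∑ x ∈ Λ, ∑ y ∈ Λ, ((starRingEnd ℂ) (c x) * c y * gg Z o ψ T y x ω).re := by
    intro ω
    have hi : ∀ x y, IntegrableOn (fun s : ℝ => (starRingEnd ℂ) (c x) * c y *
        (((Real.exp (-s) : ℝ) : ℂ) * kq Z o (ψ ω) (s * T) x y)) (Ioi 0) :=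
      fun x y => (ci hψ ho y x ω).const_mul _
    have h1 : ∀ s : ℝ, Real.exp (-s) * (Sk Z o (ψ ω) Λ c (s * T)).re =
        ∑ x ∈ Λ, ∑ y ∈ Λ, ((starRingEnd ℂ) (c x) * c y *
          (((Real.exp (-s) : ℝ) : ℂ) * kq Z o (ψ ω) (s * T) x y)).re := by
      intro s
      unfold Sk
      rw [Complex.re_sum, Finset.mul_sum]
      refine Finset.sum_congr rfl fun x _ => ?_
      rw [Complex.re_sum, Finset.mul_sum]
      refine Finset.sum_congr rfl fun y _ => ?_
      rw [← Complex.re_ofReal_mul]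
      congr 1
      ring
    simp only [h1]
    have hr : ∀ x y, IntegrableOn (fun s : ℝ => ((starRingEnd ℂ) (c x) * c y *
        (((Real.exp (-s) : ℝ) : ℂ) * kq Z o (ψ ω) (s * T) x y)).re) (Ioi 0) :=
      fun x y => (hi x y).re
    rw [integral_finsetSum _ fun x _ => integrable_finsetSum _ fun y _ => hr x y]
    refine Finset.sum_congr rfl fun x _ => ?_
    rw [integral_finsetSum _ fun y _ => hr x y]
    refine Finset.sum_congr rfl fun y _ => ?_
    have h2 := integral_re (hi x y)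
    rw [integral_const_mul] at h2
    exact h2
  simp only [hS]
  have hI0 : ∀ x y, Integrable (fun ω => (starRingEnd ℂ) (c x) * c y * gg Z o ψ T y x ω)
      (Measure.infinitePi fun _ : Zd d => μ) := fun x y => (gg_int hψ hM ho y x).const_mul _
  have hI : ∀ x y, Integrable (fun ω => ((starRingEnd ℂ) (c x) * c y * gg Z o ψ T y x ω).re)
      (Measure.infinitePi fun _ : Zd d => μ) := fun x y => (hI0 x y).re
  refine ⟨integrable_finsetSum _ fun x _ => integrable_finsetSum _ fun y _ => hI x y, ?_⟩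
  rw [integral_finsetSum _ fun x _ => integrable_finsetSum _ fun y _ => hI x y]
  have h3 : ∑ x ∈ Λ, ∫ ω, ∑ y ∈ Λ, ((starRingEnd ℂ) (c x) * c y * gg Z o ψ T y x ω).re
      ∂(Measure.infinitePi fun _ : Zd d => μ) =
      (∑ x ∈ Λ, ∑ y ∈ Λ, (starRingEnd ℂ) (c x) * c y * PP Z o ψ T μ (x - y)).re := by
    rw [Complex.re_sum]
    refine Finset.sum_congr rfl fun x _ => ?_
    rw [integral_finsetSum _ fun y _ => hI x y, Complex.re_sum]
    refine Finset.sum_congr rfl fun y _ => ?_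
    have h2 := integral_re (hI0 x y)
    rw [integral_const_mul, gg_mean hψ hM] at h2
    exact h2
  rw [h3]
  refine (Complex.re_le_norm _).trans ?_
  refine hMUL d Λ c (PP Z o ψ T μ) (2 * ε) (PP_summable hψ hM ho) fun p hp1 => ?_
  rw [PP_four hψ hM ho]
  -- the bound of the integrand
  have hb1 : ∀ ω, ‖∑' z : Zd d, ph p z * gg Z o ψ T 0 z ω‖ ≤ 1 := by
    intro ω
    have hs : Summable fun z => ‖gg Z o ψ T 0 z ω‖ :=
      summable_of_sum_le (fun z => norm_nonneg _) fun s => gg_sum hψ ho 0 s ω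
    have hn : ∀ z, ‖ph p z * gg Z o ψ T 0 z ω‖ = ‖gg Z o ψ T 0 z ω‖ := fun z => by
      rw [norm_mul, ph_norm, one_mul]
    refine (norm_tsum_le_tsum_norm (by simpa only [hn] using hs)).trans ?_
    simp only [hn]
    exact hs.tsum_le_of_sum_le fun s => gg_sum hψ ho 0 s ω
  have hb2 : ∀ ω ∈ G, ‖∑' z : Zd d, ph p z * gg Z o ψ T 0 z ω‖ ≤ ε := by
    intro ω hω
    rw [inner_sum hψ ho]
    exact hG2 ω hω p hp1
  have hb3 : ∀ ω, ‖∑' z : Zd d, ph p z * gg Z o ψ T 0 z ω‖ ≤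
      ε + Set.indicator Gᶜ (fun _ => (1 : ℝ)) ω := by
    intro ω
    by_cases hω : ω ∈ G
    · rw [Set.indicator_of_notMem (by simpa using hω), add_zero]
      exact hb2 ω hω
    · rw [Set.indicator_of_mem (by simpa using hω)]
      exact (hb1 ω).trans (by linarith)
  have hint : Integrable (Set.indicator Gᶜ (fun _ => (1 : ℝ)))
      (Measure.infinitePi fun _ : Zd d => μ) := (integrable_const 1).indicator hG.compl
  have hint2 : Integrable (fun ω => ε + Set.indicator Gᶜ (fun _ => (1 : ℝ)) ω)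
      (Measure.infinitePi fun _ : Zd d => μ) := (integrable_const ε).add hint
  refine (norm_integral_le_of_norm_le hint2 (Filter.Eventually.of_forall hb3)).trans ?_
  have h5 : ∫ ω, (ε + Set.indicator Gᶜ (fun _ => (1 : ℝ)) ω)
      ∂(Measure.infinitePi fun _ : Zd d => μ) = ε +
        (Measure.infinitePi fun _ : Zd d => μ).real Gᶜ := by
    rw [integral_add (integrable_const ε) hint, integral_indicator hG.compl]
    simp
  have h6 := probReal_compl_eq_one_sub (μ := Measure.infinitePi fun _ : Zd d => μ) hG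
  rw [h6] at h5
  exact h5.le.trans (by linarith)

end Pool.Agent.Q177.WE.EX
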